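import Mathlib

set_option autoImplicit false

namespace Pool.Agent.H.MP_21b2a2_pr

open MeasureTheory ProbabilityTheory Filter Topology Function
open scoped ENNReal

def SS (x : ℕ → ℝ) (n : ℕ) : ℝ := ∑ s ∈ Finset.range n, x s

def Al (a b : ℝ) (x : ℕ → ℝ) (n : ℕ) : Prop := ∀ s ≤ n, -b < SS x s ∧ SS x s < a

open Classical in
noncomputable def AA (a b : ℝ) (x : ℕ → ℝ) (n : ℕ) : ℝ := if Al a b x n then 1 else 0

noncomputable def WW (a b : ℝ) (x : ℕ → ℝ) (n : ℕ) : ℝ := ∑ s ∈ Finset.range n, AA a b x s * x s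

noncomputable def QQ (a b : ℝ) (x : ℕ → ℝ) (n : ℕ) : ℝ := ∑ s ∈ Finset.range n, AA a b x s * x s ^ 4

lemma AA_nn (a b : ℝ) (x : ℕ → ℝ) (n : ℕ) : 0 ≤ AA a b x n := by unfold AA; split_ifs <;> norm_num

lemma AA_le (a b : ℝ) (x : ℕ → ℝ) (n : ℕ) : AA a b x n ≤ 1 := by unfold AA; split_ifs <;> norm_num

lemma AA_sq (a b : ℝ) (x : ℕ → ℝ) (n : ℕ) : AA a b x n ^ 2 = AA a b x n := by
  unfold AA; split_ifs <;> norm_num

lemma AA_anti (a b : ℝ) (x : ℕ → ℝ) {m n : ℕ} (h : m ≤ n) : AA a b x n ≤ AA a b x m := by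
  unfold AA
  split_ifs with h1 h2
  · rfl
  · exact absurd (fun s hs => h1 s (hs.trans h)) h2
  · norm_num
  · rfl

lemma QQ_nn (a b : ℝ) (x : ℕ → ℝ) (n : ℕ) : 0 ≤ QQ a b x n :=
  Finset.sum_nonneg fun s _ => mul_nonneg (AA_nn _ _ _ _) (by positivity)

lemma path {a b : ℝ} (ha : 0 < a) (hb : 0 < b) (x : ℕ → ℝ) (n : ℕ) :
    (Al a b x n ∧ WW a b x n = SS x n) ∨ (¬ Al a b x n ∧ ∃ s < n, Al a b x s ∧ ¬ Al a b x (s + 1) ∧
      WW a b x n = SS x (s + 1) ∧ x s ^ 4 ≤ QQ a b x n) := by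
  induction n with
  | zero =>
    refine Or.inl ⟨fun s hs => ?_, by simp [WW, SS]⟩
    obtain rfl : s = 0 := by omega
    simp [SS, ha, hb]
  | succ n ih =>
    rcases ih with ⟨h1, h2⟩ | ⟨h1, s, hs, h2, h3, h4, h5⟩
    · have e : AA a b x n = 1 := if_pos h1
      have hW : WW a b x (n + 1) = SS x (n + 1) := by
        rw [WW, SS, Finset.sum_range_succ, Finset.sum_range_succ, ← WW, ← SS, h2, e, one_mul]
      by_cases h : Al a b x (n + 1)
      · exact Or.inl ⟨h, hW⟩
      · refine Or.inr ⟨h, n, by omega, h1, h, hW, ?_⟩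
        rw [QQ, Finset.sum_range_succ, ← QQ, e]
        linarith [QQ_nn a b x n]
    · have e : AA a b x n = 0 := if_neg h1
      refine Or.inr ⟨fun h => h1 fun s hs => h s (by omega), s, by omega, h2, h3, ?_, ?_⟩
      · rw [WW, Finset.sum_range_succ, ← WW, e, h4]; ring
      · rw [QQ, Finset.sum_range_succ, ← QQ, e]; linarith

lemma path1 {a b : ℝ} (ha : 0 < a) (hb : 0 < b) (x : ℕ → ℝ) (n : ℕ) :
    ∃ r D, -b < r ∧ r < a ∧ WW a b x n = r + D ∧ D ^ 4 ≤ QQ a b x n := by
  rcases path ha hb x n with ⟨h1, h2⟩ | ⟨h1, s, hs, h2, h3, h4, h5⟩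
  · exact ⟨_, 0, (h1 n le_rfl).1, (h1 n le_rfl).2, by simpa using h2, by simpa using QQ_nn a b x n⟩
  · exact ⟨_, x s, (h2 s le_rfl).1, (h2 s le_rfl).2, by rw [h4, SS, Finset.sum_range_succ, ← SS], h5⟩

lemma pathW2 {a b L : ℝ} (ha : 0 < a) (hab : a ≤ b) (hL : 0 < L) (x : ℕ → ℝ) (n : ℕ) :
    WW a b x n ^ 2 ≤ 2 * b ^ 2 + 2 * L + 2 / L * QQ a b x n := by
  obtain ⟨r, D, h1, h2, h3, h4⟩ := path1 ha (ha.trans_le hab) x n
  have h5 : D ^ 2 ≤ L + D ^ 4 / L := by
    rw [← sub_le_iff_le_add', le_div_iff₀ hL]; nlinarith [sq_nonneg (D ^ 2 - L), sq_nonneg D]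
  have h6 : D ^ 4 / L ≤ QQ a b x n / L := by gcongr
  have h7 : r ^ 2 ≤ b ^ 2 := by nlinarith
  have : 2 / L * QQ a b x n = 2 * (QQ a b x n / L) := by ring
  rw [h3, this]; nlinarith [sq_nonneg (r - D)]

open Classical in
lemma pathU {a b : ℝ} (ha : 0 < a) (hb : 0 < b) (x : ℕ → ℝ) (n : ℕ) :
    b * (if ∀ s ≤ n, SS x s < a then 1 else 0) + WW a b x n
      ≤ b * AA a b x n + 2 * a + 1 / a ^ 3 * QQ a b x n := by
  obtain ⟨r, D, h1, h2, h3, h4⟩ := path1 ha hb x n
  have h5 : D ≤ a + D ^ 4 / a ^ 3 := by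
    rcases le_total D a with h | h
    · have : 0 ≤ D ^ 4 / a ^ 3 := by positivity
      linarith
    · have : D ≤ D ^ 4 / a ^ 3 := by
        rw [le_div_iff₀ (by positivity)]
        have : a ^ 3 ≤ D ^ 3 := by gcongr
        nlinarith
      linarith
  have h6 : D ^ 4 / a ^ 3 ≤ 1 / a ^ 3 * QQ a b x n := by
    rw [one_div_mul_eq_div]; gcongr
  have h7 : 0 ≤ 1 / a ^ 3 * QQ a b x n := mul_nonneg (by positivity) (QQ_nn _ _ _ _)
  have h8 := mul_nonneg hb.le (AA_nn a b x n)
  split_ifs with hU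
  · rcases path ha hb x n with ⟨k1, -⟩ | ⟨k1, s, hs, k2, k3, k4, -⟩
    · have e : AA a b x n = 1 := if_pos k1
      rw [e]; linarith
    · have : SS x (s + 1) ≤ -b := by
        by_contra hc
        refine k3 fun j hj => ?_
        rcases Nat.lt_or_eq_of_le hj with h | rfl
        · exact k2 j (by omega)
        · exact ⟨not_le.1 hc, hU _ (by omega)⟩
      linarith
  · linarith

lemma SS_congr {x y : ℕ → ℝ} {n : ℕ} (h : ∀ j < n, x j = y j) : SS x n = SS y n :=
  Finset.sum_congr rfl fun j hj => h j (Finset.mem_range.1 hj)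

lemma AA_congr (a b : ℝ) {x y : ℕ → ℝ} {n : ℕ} (h : ∀ j < n, x j = y j) :
    AA a b x n = AA a b y n := by
  have : Al a b x n ↔ Al a b y n :=
    forall₂_congr fun s hs => by rw [SS_congr fun j hj => h j (by omega)]
  unfold AA; rw [this]

lemma WW_congr (a b : ℝ) {x y : ℕ → ℝ} {n : ℕ} (h : ∀ j < n, x j = y j) :
    WW a b x n = WW a b y n :=
  Finset.sum_congr rfl fun j hj => by
    have := Finset.mem_range.1 hj
    rw [h j this, AA_congr a b fun i hi => h i (by omega)]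

lemma SS_m (n : ℕ) : Measurable fun x => SS x n := by unfold SS; fun_prop

lemma AA_m (a b : ℝ) (n : ℕ) : Measurable fun x => AA a b x n := by
  refine Measurable.ite ?_ measurable_const measurable_const
  have := SS_m
  unfold Al
  measurability

lemma WW_m (a b : ℝ) (n : ℕ) : Measurable fun x => WW a b x n := by
  have := AA_m a b
  unfold WW; fun_prop

lemma rw_max {G : Type} [MeasurableSpace G] (P : Measure (ℕ → G)) [IsProbabilityMeasure P]
    (ξ : ℕ → (ℕ → G) → ℝ) (hm : ∀ s, Measurable (ξ s)) (ν : Measure ℝ)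
    (hind : ∀ s (H : (ℕ → G) → ℝ), Measurable H → (∀ ω g, H (update ω s g) = H ω) → IndepFun H (ξ s) P)
    (hpast : ∀ s, ∀ j < s, ∀ ω g, ξ j (update ω s g) = ξ j ω) (hlaw : ∀ s, P.map (ξ s) = ν)
    (h0 : ∫ x, x ∂ν = 0) (h2 : 0 < ∫ x, x ^ 2 ∂ν) (h4 : Integrable (fun x => x ^ 4) ν) :
    ∃ C : ℝ, ∀ k : ℕ, P.real {ω | ∀ s ≤ 256 ^ k, SS (fun j => ξ j ω) s < 4 ^ k} ≤ C / 2 ^ k := by
  set σ := ∫ x, x ^ 2 ∂ν
  set M := ∫ x, x ^ 4 ∂ν
  have hM : 0 ≤ M := integral_nonneg fun x => by positivity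
  set L := 4 * M / σ + 1
  have hL : 0 < L := by positivity
  have hx : Measurable fun ω j => ξ j ω := measurable_pi_lambda _ hm
  have i4 : ∀ s, Integrable (fun ω => ξ s ω ^ 4) P := fun s => by
    rw [← hlaw s] at h4; exact (integrable_map_measure h4.1 (hm s).aemeasurable).1 h4
  have i2 : ∀ s, Integrable (fun ω => ξ s ω ^ 2) P := fun s =>
    ((i4 s).add (integrable_const 1)).mono' ((hm s).pow_const 2).aestronglyMeasurable
      (ae_of_all _ fun ω => by
        simp only [Pi.add_apply, norm_pow, Real.norm_eq_abs, sq_abs]; nlinarith [sq_nonneg (ξ s ω ^ 2 - 1)])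
  have i1 : ∀ s, Integrable (ξ s) P := fun s =>
    ((i2 s).add (integrable_const 1)).mono' (hm s).aestronglyMeasurable
      (ae_of_all _ fun ω => by
        simp only [Pi.add_apply, Real.norm_eq_abs]
        nlinarith [sq_nonneg (|ξ s ω| - 1), sq_abs (ξ s ω)])
  have e : ∀ s (p : ℕ), ∫ ω, ξ s ω ^ p ∂P = ∫ x, x ^ p ∂ν := fun s p => by
    rw [← hlaw s, integral_map (hm s).aemeasurable (by fun_prop)]
  have key : ∀ s (p : ℕ) (H : (ℕ → ℝ) → ℝ), Measurable H →
      (∀ x y : ℕ → ℝ, (∀ j < s, x j = y j) → H x = H y) → Integrable (fun ω => H fun j => ξ j ω) P →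
      Integrable (fun ω => ξ s ω ^ p) P →
      Integrable (fun ω => H (fun j => ξ j ω) * ξ s ω ^ p) P ∧
      ∫ ω, H (fun j => ξ j ω) * ξ s ω ^ p ∂P = (∫ ω, H (fun j => ξ j ω) ∂P) * ∫ x, x ^ p ∂ν := by
    intro s p H hH hd hi hp
    have := (hind s (fun ω => H fun j => ξ j ω) (hH.comp hx)
      fun ω g => hd _ _ fun j hj => hpast s j hj ω g).comp measurable_id (measurable_id.pow_const p)
    exact ⟨this.integrable_mul hi hp, by
      rw [← e s p]; exact this.integral_fun_mul_eq_mul_integral hi.1 hp.1⟩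
  refine ⟨(4 + 4 * L) / σ + 2 + M * ((4 + 4 * L) / σ), fun k => ?_⟩
  set a : ℝ := 4 ^ k
  set b : ℝ := 8 ^ k
  have ha : 0 < a := by positivity
  have hb : 0 < b := by positivity
  have iA : ∀ s, Integrable (fun ω => AA a b (fun j => ξ j ω) s) P := fun s =>
    (integrable_const (1 : ℝ)).mono' ((AA_m a b s).comp hx).aestronglyMeasurable
      (ae_of_all _ fun ω => by rw [Real.norm_eq_abs, abs_of_nonneg (AA_nn _ _ _ _)]; exact AA_le _ _ _ _)
  have kA := fun s p hp => key s p (fun x => AA a b x s) (AA_m a b s) (fun x y h => AA_congr a b h) (iA s) hp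
  set T : ℕ → ℝ := fun n => ∑ s ∈ Finset.range n, ∫ ω, AA a b (fun j => ξ j ω) s ∂P with hT
  have i1' : ∀ s, Integrable (fun ω => ξ s ω ^ 1) P := fun s => by simpa using i1 s
  have iW : ∀ n, Integrable (fun ω => WW a b (fun j => ξ j ω) n) P := fun n =>
    integrable_finsetSum _ fun s _ => by simpa using (kA s 1 (i1' s)).1
  have eW : ∀ n, ∫ ω, WW a b (fun j => ξ j ω) n ∂P = 0 := fun n => by
    unfold WW
    rw [integral_finsetSum _ fun s _ => by simpa using (kA s 1 (i1' s)).1]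
    exact Finset.sum_eq_zero fun s _ => by simpa [h0] using (kA s 1 (i1' s)).2
  have iQ : ∀ n, Integrable (fun ω => QQ a b (fun j => ξ j ω) n) P := fun n =>
    integrable_finsetSum _ fun s _ => (kA s 4 (i4 s)).1
  have eQ : ∀ n, ∫ ω, QQ a b (fun j => ξ j ω) n ∂P = T n * M := fun n => by
    unfold QQ
    rw [integral_finsetSum _ fun s _ => (kA s 4 (i4 s)).1, hT, Finset.sum_mul]
    exact Finset.sum_congr rfl fun s _ => (kA s 4 (i4 s)).2
  have W2 : ∀ n, Integrable (fun ω => WW a b (fun j => ξ j ω) n ^ 2) P ∧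
      ∫ ω, WW a b (fun j => ξ j ω) n ^ 2 ∂P = T n * σ := fun n => by
    induction n with
    | zero => simp [WW, hT]
    | succ n ih =>
      have k1 := key n 1 (fun x => WW a b x n * AA a b x n) ((WW_m a b n).mul (AA_m a b n))
        (fun x y h => by rw [WW_congr a b h, AA_congr a b h])
        ((iW n).mul_bdd (c := 1) (iA n).1 (ae_of_all _ fun ω => by
          rw [Real.norm_eq_abs, abs_of_nonneg (AA_nn _ _ _ _)]; exact AA_le _ _ _ _)) (i1' n)
      have k2 := kA n 2 (i2 n)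
      have : (fun ω => WW a b (fun j => ξ j ω) (n + 1) ^ 2) = fun ω => WW a b (fun j => ξ j ω) n ^ 2
          + (2 * (WW a b (fun j => ξ j ω) n * AA a b (fun j => ξ j ω) n * ξ n ω ^ 1)
          + AA a b (fun j => ξ j ω) n * ξ n ω ^ 2) := by
        funext ω
        rw [WW, Finset.sum_range_succ, ← WW]
        have := AA_sq a b (fun j => ξ j ω) n
        linear_combination ξ n ω ^ 2 * this
      rw [this]
      refine ⟨ih.1.add ((k1.1.const_mul 2).add k2.1), ?_⟩
      rw [integral_add ih.1 ((k1.1.const_mul 2).fun_add k2.1), integral_add (k1.1.const_mul 2) k2.1,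
        integral_const_mul, k1.2, k2.2, ih.2]
      simp only [pow_one, h0, hT, Finset.sum_range_succ]; ring
  set n := 256 ^ k
  have hT0 : 0 ≤ T n := Finset.sum_nonneg fun s _ => integral_nonneg fun ω => AA_nn _ _ _ _
  have b1 : T n * σ ≤ 2 * b ^ 2 + 2 * L + 2 / L * (T n * M) := by
    rw [← (W2 n).2, ← eQ, ← integral_const_mul]
    have := integral_mono (W2 n).1 ((integrable_const (2 * b ^ 2 + 2 * L)).add ((iQ n).const_mul (2 / L)))
      fun ω => pathW2 ha (pow_le_pow_left₀ (by norm_num) (by norm_num) k) hL (fun j => ξ j ω) n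
    simp only [Pi.add_apply] at this
    rwa [integral_add (integrable_const _) ((iQ n).const_mul _), integral_const, probReal_univ,
      one_smul] at this
  have b2 : 2 / L * (T n * M) ≤ T n * σ / 2 := by
    rw [div_mul_eq_mul_div, div_le_div_iff₀ hL two_pos]
    have : σ * L = 4 * M + σ := by simp only [L]; field_simp
    nlinarith [mul_nonneg hT0 h2.le]
  have hb1 : 1 ≤ b ^ 2 := one_le_pow₀ (one_le_pow₀ (by norm_num))
  have b3 : T n ≤ b ^ 2 * ((4 + 4 * L) / σ) := by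
    rw [mul_div_assoc', le_div_iff₀ h2]; nlinarith
  have b4 : (n : ℝ) * ∫ ω, AA a b (fun j => ξ j ω) n ∂P ≤ T n := by
    have := Finset.card_nsmul_le_sum (Finset.range n) (fun s => ∫ ω, AA a b (fun j => ξ j ω) s ∂P) _
      fun s hs => integral_mono (iA n) (iA s) fun ω => AA_anti a b _ (Finset.mem_range.1 hs).le
    simpa using this
  have hU : MeasurableSet {ω | ∀ s ≤ n, SS (fun j => ξ j ω) s < a} := by
    have := fun s => (SS_m s).comp hx
    measurability
  have b5 : b * P.real {ω | ∀ s ≤ n, SS (fun j => ξ j ω) s < a}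
      ≤ b * ∫ ω, AA a b (fun j => ξ j ω) n ∂P + 2 * a + 1 / a ^ 3 * (T n * M) := by
    have iU := (integrable_const (μ := P) (1 : ℝ)).indicator hU
    have := integral_mono ((iU.const_mul b).add (iW n))
      ((((iA n).const_mul b).add (integrable_const (2 * a))).add ((iQ n).const_mul (1 / a ^ 3)))
      fun ω => by
        have := pathU ha hb (fun j => ξ j ω) n
        simpa only [Pi.add_apply, Set.indicator_apply, Set.mem_ofPred_eq] using this
    simp only [Pi.add_apply] at this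
    rw [integral_add (iU.const_mul b) (iW n), eW, integral_const_mul, integral_indicator hU,
      integral_add (((iA n).const_mul b).fun_add (integrable_const (2 * a))) ((iQ n).const_mul _),
      integral_add ((iA n).const_mul b) (integrable_const _), integral_const_mul, integral_const_mul,
      integral_const_mul, eQ] at this
    simpa using this
  set K := (4 + 4 * L) / σ
  have hK : 0 ≤ K := by positivity
  set u : ℝ := 2 ^ k
  have hu : 1 ≤ u := one_le_pow₀ (by norm_num)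
  have ea : a = u ^ 2 := by simp only [a, u]; rw [← pow_mul, mul_comm, pow_mul]; norm_num
  have eb : b = u ^ 3 := by simp only [b, u]; rw [← pow_mul, mul_comm, pow_mul]; norm_num
  have en : (n : ℝ) = u ^ 8 := by simp only [n, u]; rw [← pow_mul, mul_comm, pow_mul]; norm_num
  set I := ∫ ω, AA a b (fun j => ξ j ω) n ∂P
  set p := P.real {ω | ∀ s ≤ n, SS (fun j => ξ j ω) s < a}
  rw [en] at b4
  rw [eb] at b3
  have c1 : u ^ 2 * I ≤ K := by
    have : u ^ 6 * (u ^ 2 * I) ≤ u ^ 6 * K := by nlinarith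
    exact le_of_mul_le_mul_left this (by positivity)
  have c2 : 1 / a ^ 3 * (T n * M) ≤ M * K := by
    rw [one_div_mul_eq_div, div_le_iff₀ (by positivity), ea]; nlinarith
  rw [le_div_iff₀ (by positivity)]
  have c3 : u ^ 2 * (p * u) ≤ u ^ 2 * (K + 2 + M * K) := by
    rw [eb, ea] at b5
    have : u ≤ u ^ 2 := by nlinarith
    have : 1 ≤ u ^ 2 := by nlinarith
    have : u * (u ^ 2 * I) ≤ u ^ 2 * K := by nlinarith
    rw [ea] at c2
    nlinarith [mul_nonneg hM hK]
  exact le_of_mul_le_mul_left c3 (by positivity)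

end Pool.Agent.H.MP_21b2a2_pr
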