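import Mathlib

set_option autoImplicit false

namespace Pool.Agent.H.MP_21b2a2_pr

open MeasureTheory ProbabilityTheory Filter Topology Function WithLp
open scoped ENNReal RealInnerProductSpace

noncomputable abbrev gp (N : ℕ) : Measure (Fin N → ℝ) := Measure.pi fun _ => gaussianReal 0 1

noncomputable abbrev gG (N : ℕ) : Measure (Fin N → Fin N → ℝ) := Measure.pi fun _ => gp N

abbrev EE (N : ℕ) := EuclideanSpace ℝ (Fin N)

lemma cf_row {N : ℕ} {F : Type} [NormedAddCommGroup F] [InnerProductSpace ℝ F] [MeasurableSpace F]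
    [BorelSpace F] [SecondCountableTopology F] (m : F) (A : Fin N → F) (t : F) :
    charFun ((gp N).map fun z => m + ∑ k, z k • A k) t
      = Complex.exp (⟪t, m⟫ * Complex.I - (∑ k, ⟪A k, t⟫ ^ 2 : ℝ) / 2) := by
  rw [charFun_apply, integral_map (Measurable.aemeasurable (by fun_prop))
    (Measurable.aestronglyMeasurable (by fun_prop))]
  simp_rw [inner_add_left, Complex.ofReal_add, add_mul, Complex.exp_add, integral_const_mul, sum_inner,
    Complex.ofReal_sum, Finset.sum_mul, Complex.exp_sum,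
    integral_fintype_prod_eq_prod (f := fun i (x : ℝ) ↦ Complex.exp (⟪x • A i, t⟫ * Complex.I)),
    real_inner_smul_left, mul_comm _ (⟪_, _⟫), Complex.ofReal_mul, ← charFun_apply_real,
    charFun_gaussianReal]
  rw [← Complex.exp_sum, ← Complex.exp_add, real_inner_comm]
  congr 1
  simp [Finset.sum_div, sub_eq_add_neg]

noncomputable def mv {N : ℕ} (g : Fin N → Fin N → ℝ) (v : EE N) : EE N := toLp 2 fun i => ∑ k, g i k * v k

lemma mv_smul {N : ℕ} (g : Fin N → Fin N → ℝ) (a : ℝ) (v : EE N) : mv g (a • v) = a • mv g v := by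
  ext i; simp [mv, Finset.mul_sum, mul_left_comm]

lemma mv_m {N : ℕ} : Measurable fun p : EE N × (Fin N → Fin N → ℝ) => mv p.2 p.1 := by
  unfold mv; fun_prop

lemma mv_mp {N : ℕ} (v : EE N) (hv : ‖v‖ = 1) :
    MeasurePreserving (fun g => mv g v) (gG N) (stdGaussian (EE N)) := by
  have h1 : MeasurePreserving (fun z : Fin N → ℝ => ∑ k, z k * v k) (gp N) (gaussianReal 0 1) := by
    refine ⟨by fun_prop, Measure.ext_of_charFun (funext fun t => ?_)⟩
    have := cf_row (0 : ℝ) (fun k => v k) t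
    simp only [zero_add, smul_eq_mul] at this
    have e : ∑ k, ⟪v k, t⟫ ^ 2 = t ^ 2 := by
      have := EuclideanSpace.real_norm_sq_eq v
      simp only [Real.inner_apply, mul_pow, ← Finset.sum_mul, ← this, hv]; ring
    rw [this, charFun_gaussianReal, e]; simp
  exact (MeasurePreserving.mk (by fun_prop) map_pi_eq_stdGaussian).comp
    (measurePreserving_pi _ _ fun _ => h1)

lemma rep_mp {N : ℕ} (b : OrthonormalBasis (Fin N) ℝ (EE N)) :
    MeasurePreserving (fun x : Fin N → ℝ => ∑ i, x i • b i) (gp N) (stdGaussian (EE N)) :=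
  ⟨by fun_prop, (stdGaussian_eq_map_pi_orthonormalBasis b).symm⟩

lemma ex_basis {n : ℕ} (e v : EE (n + 2)) (he : ‖e‖ = 1) (hv : ‖v‖ = 1) (h : ⟪e, v⟫ = 0) :
    ∃ b : OrthonormalBasis (Fin (n + 2)) ℝ (EE (n + 2)), b 0 = e ∧ b 1 = v := by
  obtain ⟨b, hb⟩ := Orthonormal.exists_orthonormalBasis_extension_of_card_eq (𝕜 := ℝ) (E := EE (n + 2))
    (ι := Fin (n + 2)) (by simp) (v := fun i => if i = 0 then e else v) (s := {0, 1}) (by
      refine ⟨?_, ?_⟩
      · rintro ⟨i, rfl | rfl⟩ <;> simp [he, hv]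
      · rintro ⟨i, rfl | rfl⟩ ⟨j, rfl | rfl⟩ hij <;> simp_all [real_inner_comm])
  exact ⟨b, by simpa using hb 0 (by simp), by simpa using hb 1 (by simp)⟩

noncomputable def pj {N : ℕ} (e y : EE N) : EE N := y - ⟪e, y⟫ • e

def qq {n : ℕ} (β c : ℝ) (x : Fin (n + 1) → ℝ) : ℝ := (β + c * x 0) ^ 2 + ∑ j : Fin n, (c * x j.succ) ^ 2

lemma qq_m {n : ℕ} (β c : ℝ) : Measurable (qq (n := n) β c) := by unfold qq; fun_prop

noncomputable def rr {N : ℕ} (e : EE N) (β c : ℝ) (v : EE N) (g : Fin N → Fin N → ℝ) : ℝ :=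
  ‖β • v + c • pj e (mv g v)‖ ^ 2

lemma rr_m {N : ℕ} (e : EE N) (β c : ℝ) : Measurable fun p : EE N × _ => rr e β c p.1 p.2 := by
  have := mv_m (N := N)
  unfold rr pj; fun_prop

lemma rr_law {n : ℕ} (e v : EE (n + 2)) (he : ‖e‖ = 1) (hv : ‖v‖ = 1) (h : ⟪e, v⟫ = 0) (β c : ℝ) :
    (gG (n + 2)).map (rr e β c v) = (gp (n + 1)).map (qq β c) := by
  obtain ⟨b, rfl, rfl⟩ := ex_basis e v he hv h
  have m1 : Measurable fun z : EE (n + 2) => ‖β • b 1 + c • pj (b 0) z‖ ^ 2 := by unfold pj; fun_prop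
  have h1 := (measurePreserving_snd (μ := gaussianReal 0 1) (ν := gp (n + 1))).comp
    (measurePreserving_piFinSuccAbove (fun _ : Fin (n + 2) => gaussianReal 0 1) 0)
  rw [show rr (b 0) β c (b 1) = (fun z => ‖β • b 1 + c • pj (b 0) z‖ ^ 2) ∘ fun g => mv g (b 1) from rfl,
    ← Measure.map_map m1 (mv_mp _ hv).measurable, (mv_mp _ hv).map_eq, ← (rep_mp b).map_eq,
    Measure.map_map m1 (rep_mp b).measurable, ← h1.map_eq, Measure.map_map (qq_m β c) h1.measurable]
  congr 1
  funext x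
  have hb := orthonormal_iff_ite.1 b.orthonormal
  have hx : ∀ i, ⟪b i, ∑ j, x j • b j⟫ = x i := fun i => b.orthonormal.inner_right_fintype x i
  simp only [comp_apply, ← b.sum_sq_inner_right, pj, inner_add_right, inner_smul_right, inner_sub_right,
    hx, hb, qq]
  rw [Fin.sum_univ_succ, Fin.sum_univ_succ]
  have : ∀ j : Fin n, j.succ.succ ≠ 1 := fun j h => by simpa using congrArg Fin.val h
  simp [Fin.tail, this]

lemma gauss_le (s : Set ℝ) : gaussianReal 0 1 s ≤ volume s := by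
  rw [gaussianReal_apply _ one_ne_zero, ← setLIntegral_one]
  refine lintegral_mono fun x => ENNReal.ofReal_le_one.2 ?_
  rw [gaussianPDFReal]
  refine mul_le_one₀ (inv_le_one_of_one_le₀ (Real.one_le_sqrt.2 ?_)) (Real.exp_pos _).le
    (Real.exp_le_one_iff.2 ?_)
  · simp; nlinarith [Real.pi_gt_three]
  · simp only [NNReal.coe_one]; nlinarith [sq_nonneg (x - 0)]

lemma anti1 (A B K : ℝ) (hB : B ≠ 0) :
    gaussianReal 0 1 {x | |A + x * B| ≤ K} ≤ ENNReal.ofReal (2 * (K / |B|)) := by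
  rw [← Real.volume_closedBall (-A / B)]
  refine (gauss_le _).trans (measure_mono fun x hx => ?_)
  rw [Metric.mem_closedBall, Real.dist_eq, le_div_iff₀ (abs_pos.2 hB), ← abs_mul]
  rwa [show (x - -A / B) * B = A + x * B by field_simp; ring]

lemma anti2 {n : ℕ} (e v : EE (n + 2)) (he : ‖e‖ = 1) (hv : ‖v‖ = 1) (h : ⟪e, v⟫ = 0)
    (F : EE (n + 2) → ℝ) (hF : Measurable F) (κ : ℝ) (hκ : κ ≠ 0) (hFe : ∀ y (r : ℝ), F (y + r • e) = F y + r * κ)
    (y : EE (n + 2)) (ρ K : ℝ) (hρ : 0 < ρ) :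
    gG (n + 2) {g | |F (y + ρ • mv g v)| ≤ K} ≤ ENNReal.ofReal (2 * (K / (ρ * |κ|))) := by
  obtain ⟨b, rfl, rfl⟩ := ex_basis e v he hv h
  have m1 : MeasurableSet {z : EE (n + 2) | |F (y + ρ • z)| ≤ K} :=
    measurableSet_le (by fun_prop) measurable_const
  have h1 := (rep_mp b).comp (measurePreserving_piFinSuccAbove (fun _ : Fin (n + 2) => gaussianReal 0 1) 0).symm
  rw [show {g | |F (y + ρ • mv g (b 1))| ≤ K} = (fun g => mv g (b 1)) ⁻¹' {z | |F (y + ρ • z)| ≤ K} from rfl,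
    (mv_mp _ hv).measure_preimage m1.nullMeasurableSet, ← h1.measure_preimage m1.nullMeasurableSet,
    Measure.prod_apply_symm (h1.measurable m1)]
  refine (lintegral_mono fun x => ?_).trans_eq (by rw [lintegral_const, measure_univ, mul_one])
  have := anti1 (F (y + ρ • ∑ j : Fin (n + 1), x j • b j.succ)) (ρ * κ) K (mul_ne_zero hρ.ne' hκ)
  rw [abs_mul, abs_of_pos hρ] at this
  refine le_of_eq_of_le ?_ this
  congr 1
  ext t
  have e : y + ρ • (t • b 0 + ∑ j : Fin (n + 1), x j • b j.succ)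
      = y + ρ • ∑ j : Fin (n + 1), x j • b j.succ + (t * ρ) • b 0 := by module
  simp [MeasurableEquiv.piFinSuccAbove, Fin.sum_univ_succ (n := n + 1), e, hFe, mul_assoc, -smul_add]

lemma qq_ge {n : ℕ} (β c : ℝ) (x : Fin (n + 1) → ℝ) : (β + c * x 0) ^ 2 ≤ qq β c x :=
  le_add_of_nonneg_right (Finset.sum_nonneg fun _ _ => sq_nonneg _)

lemma ev0 (n : ℕ) : MeasurePreserving (fun x : Fin (n + 1) → ℝ => x 0) (gp (n + 1)) (gaussianReal 0 1) :=
  measurePreserving_eval _ 0

lemma qq_pos {n : ℕ} (β : ℝ) {c : ℝ} (hc : 0 < c) : ∀ᵐ x ∂gp (n + 1), 0 < |β + c * x 0| := by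
  have : ∀ᵐ t ∂gaussianReal 0 1, 0 < |β + c * t| := by
    have := nullSingletonClass_gaussianReal (μ := 0) (v := 1) one_ne_zero
    filter_upwards [compl_mem_ae_iff.2 (measure_singleton (μ := gaussianReal 0 1) (-β / c))] with t ht
    refine abs_pos.2 fun h => ht ?_
    rw [Set.mem_singleton_iff, eq_div_iff hc.ne']; linarith
  exact (ev0 n).quasiMeasurePreserving.ae this

lemma int_rpow (β : ℝ) {c : ℝ} (hc : 0 < c) :
    Integrable (fun t => |β + c * t| ^ (-(1 / 2) : ℝ)) (gaussianReal 0 1) := by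
  have h1 : IntegrableOn (fun t : ℝ => |t| ^ (-(1 / 2) : ℝ)) (Metric.ball 0 1) volume :=
    integrableOn_ball_of_norm_le_rpow (C := 1) (α := 1 / 2) (by simp) (by simp; norm_num)
      (ae_of_all _ fun t => by simp [abs_of_nonneg (Real.rpow_nonneg (abs_nonneg t) _)])
      (Measurable.aestronglyMeasurable (by fun_prop))
  have h2 := ((h1.integrable_indicator measurableSet_ball).comp_add_left β).comp_mul_left' hc.ne'
  have h3 := h2.mono_measure (Measure.le_iff'.2 gauss_le)
  refine (h3.add (integrable_const 1)).mono' (Measurable.aestronglyMeasurable (by fun_prop))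
    (ae_of_all _ fun t => ?_)
  rw [Real.norm_eq_abs, abs_of_nonneg (Real.rpow_nonneg (abs_nonneg _) _)]
  simp only [Pi.add_apply]
  by_cases h : β + c * t ∈ Metric.ball (0 : ℝ) 1
  · rw [Set.indicator_of_mem h]; linarith
  · rw [Set.indicator_of_notMem h, zero_add]
    exact Real.rpow_le_one_of_one_le_of_nonpos (by simpa using h) (by norm_num)

lemma log4 {q r : ℝ} (hr : 0 < r) (hq : r ^ 2 ≤ q) :
    Real.log q ^ 4 ≤ 256 * q + 65536 * r ^ (-(1 / 2) : ℝ) := by
  have hq0 : 0 < q := lt_of_lt_of_le (by positivity) hq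
  have p1 : 0 ≤ r ^ (-(1 / 2) : ℝ) := by positivity
  rcases le_total 1 q with h | h
  · have h1 := Real.log_le_rpow_div hq0.le (show (0 : ℝ) < 1 / 4 by norm_num)
    have h2 : (q ^ (1 / 4 : ℝ)) ^ 4 = q := by
      rw [← Real.rpow_natCast, ← Real.rpow_mul hq0.le]; norm_num
    have h3 := pow_le_pow_left₀ (Real.log_nonneg h) h1 4
    rw [div_pow, h2, show q / (1 / 4) ^ 4 = 256 * q by ring] at h3
    linarith
  · have h0 : 2 * Real.log r ≤ Real.log q := by
      have := Real.log_le_log (by positivity) hq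
      rwa [Real.log_pow] at this
    have h1 := Real.log_le_rpow_div (inv_pos.2 hr).le (show (0 : ℝ) < 1 / 8 by norm_num)
    have h2 : (r⁻¹ ^ (1 / 8 : ℝ)) ^ 4 = r ^ (-(1 / 2) : ℝ) := by
      rw [← Real.rpow_natCast, ← Real.rpow_mul (inv_pos.2 hr).le, Real.rpow_neg hr.le,
        Real.inv_rpow hr.le]; norm_num
    rw [Real.log_inv] at h1
    have h3 := pow_le_pow_left₀ (neg_nonneg.2 (Real.log_nonpos hq0.le h))
      (show -Real.log q ≤ 16 * r⁻¹ ^ (1 / 8 : ℝ) by linarith) 4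
    rw [mul_pow, h2, Even.neg_pow (by decide)] at h3
    linarith

lemma int_qq {n : ℕ} (β c : ℝ) : Integrable (qq (n := n) β c) (gp (n + 1)) := by
  have h : ∀ i, MemLp (fun x : Fin (n + 1) → ℝ => x i) 2 (gp (n + 1)) := fun i =>
    (memLp_id_gaussianReal 2).comp_measurePreserving (measurePreserving_eval _ i)
  exact (((memLp_const β).add ((h 0).const_mul c)).integrable_sq).add
    (integrable_finsetSum _ fun j _ => ((h _).const_mul c).integrable_sq)

lemma int_log4 {n : ℕ} (β : ℝ) {c : ℝ} (hc : 0 < c) :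
    Integrable (fun x => Real.log (qq (n := n) β c x) ^ 4) (gp (n + 1)) := by
  have := qq_m (n := n) β c
  refine (((int_qq β c).const_mul 256).add
    (((ev0 n).integrable_comp_of_integrable (int_rpow β hc)).const_mul 65536)).mono'
    (Measurable.aestronglyMeasurable (by fun_prop)) ?_
  filter_upwards [qq_pos β hc] with x hx
  rw [Real.norm_eq_abs, abs_of_nonneg (by positivity)]
  exact log4 hx (by rw [sq_abs]; exact qq_ge β c x)

lemma var_pos {n : ℕ} {β c : ℝ} (hβ : 0 ≤ β) (hc : 0 < c) :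
    0 < ∫ x, Real.log (qq (n := n) β c x) ^ 2 ∂gp (n + 1) := by
  have := qq_m (n := n) β c
  have i2 : Integrable (fun x => Real.log (qq (n := n) β c x) ^ 2) (gp (n + 1)) :=
    ((int_log4 β hc).add (integrable_const 1)).mono' (Measurable.aestronglyMeasurable (by fun_prop))
      (ae_of_all _ fun x => by
        simp only [Pi.add_apply, norm_pow, Real.norm_eq_abs, sq_abs]
        nlinarith [sq_nonneg (Real.log (qq β c x) ^ 2 - 1)])
  rw [integral_pos_iff_support_of_nonneg (fun x => sq_nonneg _) i2]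
  refine lt_of_lt_of_le ?_ (measure_mono (s := (fun x => x 0) ⁻¹' Set.Ioi (2 / c)) fun x hx => ?_)
  · rw [(ev0 n).measure_preimage measurableSet_Ioi.nullMeasurableSet, pos_iff_ne_zero]
    intro h
    simpa using gaussianReal_absolutelyContinuous' 0 one_ne_zero h
  · have h1 : 2 < x 0 * c := (div_lt_iff₀ hc).1 hx
    have h2 := qq_ge β c x
    exact (pow_pos (Real.log_pos (by nlinarith)) 2).ne'

end Pool.Agent.H.MP_21b2a2_pr
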