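import Pool.Agent.H.MP_21b2a2_pr.A
import Pool.Agent.H.MP_21b2a2_pr.B

set_option autoImplicit false

namespace Pool.Agent.H.MP_21b2a2_pr

open MeasureTheory ProbabilityTheory Filter Topology Function WithLp
open scoped ENNReal RealInnerProductSpace

lemma upd_mp {ι E : Type} [DecidableEq ι] [MeasurableSpace E] (π : Measure E) [IsProbabilityMeasure π]
    (j : ι) : MeasurePreserving (fun z : (ι → E) × E => update z.1 j z.2)
      ((Measure.infinitePi fun _ : ι => π).prod π) (Measure.infinitePi fun _ : ι => π) := by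
  have hm : Measurable (fun z : (ι → E) × E => update z.1 j z.2) := measurable_update'
  refine ⟨hm, Measure.eq_infinitePi _ fun s t ht => ?_⟩
  rw [Measure.map_apply hm (.pi s.countable_toSet fun _ _ => ht _)]
  by_cases hj : j ∈ s
  · have : (fun z : (ι → E) × E => update z.1 j z.2) ⁻¹' (s : Set ι).pi t
        = ((s.erase j : Finset ι) : Set ι).pi t ×ˢ t j := by
      ext ⟨w, y⟩
      simp only [Set.mem_preimage, Set.mem_pi, Finset.mem_coe, Set.mem_prod, Finset.mem_erase]
      constructor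
      · intro h
        refine ⟨fun i hi => ?_, by simpa using h j hj⟩
        have := h i hi.2
        rwa [update_of_ne hi.1] at this
      · rintro ⟨h1, h2⟩ i hi
        by_cases e : i = j
        · subst e; simpa using h2
        · rw [update_of_ne e]; exact h1 i ⟨e, hi⟩
    rw [this, Measure.prod_prod, Measure.infinitePi_pi _ fun i _ => ht i, Finset.prod_erase_mul _ _ hj]
  · have : (fun z : (ι → E) × E => update z.1 j z.2) ⁻¹' (s : Set ι).pi t
        = (s : Set ι).pi t ×ˢ Set.univ := by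
      ext ⟨w, y⟩
      simp only [Set.mem_preimage, Set.mem_pi, Finset.mem_coe, Set.mem_prod, Set.mem_univ, and_true]
      refine forall₂_congr fun i hi => ?_
      rw [update_of_ne (by rintro rfl; exact hj hi)]
    rw [this, Measure.prod_prod, Measure.infinitePi_pi _ fun i _ => ht i]; simp

lemma upd_s {G : Type} [MeasurableSpace G] (π : Measure G) [IsProbabilityMeasure π] (s : ℕ)
    {A : Set (ℕ → G)} (hA : MeasurableSet A) :
    Measure.infinitePi (fun _ : ℕ => π) A
      = ∫⁻ ω, π {g | update ω s g ∈ A} ∂(Measure.infinitePi fun _ : ℕ => π) := by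
  rw [← (upd_mp π s).measure_preimage hA.nullMeasurableSet, Measure.prod_apply ((upd_mp π s).measurable hA)]
  rfl

lemma step_meas {G V : Type} [MeasurableSpace G] [MeasurableSpace V] (π : Measure G)
    [IsProbabilityMeasure π] (s : ℕ) (f : V → G → ℝ) (hf : Measurable fun p : V × G => f p.1 p.2)
    (v : (ℕ → G) → V) (hv : Measurable v) (hvu : ∀ ω g, v (update ω s g) = v ω) (ν : Measure ℝ)
    (hν : ∀ ω, π.map (f (v ω)) = ν) {A : Set (ℕ → G)} (hA : MeasurableSet A)
    (hAu : ∀ ω g, update ω s g ∈ A ↔ ω ∈ A) {B : Set ℝ} (hB : MeasurableSet B) :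
    Measure.infinitePi (fun _ : ℕ => π) (A ∩ (fun ω => f (v ω) (ω s)) ⁻¹' B)
      = Measure.infinitePi (fun _ : ℕ => π) A * ν B := by
  have hm : Measurable fun ω : ℕ → G => f (v ω) (ω s) := hf.comp (hv.prodMk (measurable_pi_apply s))
  rw [upd_s π s (hA.inter (hm hB)), mul_comm, ← setLIntegral_const, ← lintegral_indicator hA]
  refine lintegral_congr fun ω => ?_
  by_cases h : ω ∈ A
  · rw [Set.indicator_of_mem h, ← hν ω, Measure.map_apply (f := f (v ω)) (hf.comp measurable_prodMk_left) hB]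
    congr 1; ext g; simp [hAu, h, hvu]
  · simp [h, hAu]

variable {N : ℕ} (e : EE N) (β c : ℝ)

noncomputable def st (y : EE N) (g : Fin N → Fin N → ℝ) : EE N :=
  β • y + ((1 - β) * ⟪e, y⟫) • e + c • mv g (pj e y)

noncomputable def fl (x : EE N) (ω : ℕ → Fin N → Fin N → ℝ) : ℕ → EE N
  | 0 => x
  | t + 1 => st e β c (fl x ω t) (ω t)

open Classical in
noncomputable def un (v w : EE N) : EE N := if w = 0 then v else ‖w‖⁻¹ • w

lemma un_eq (v w : EE N) : ‖w‖ • un v w = w := by
  unfold un; split_ifs with h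
  · simp [h]
  · rw [smul_smul, mul_inv_cancel₀ (norm_ne_zero_iff.2 h), one_smul]

lemma un_norm {v : EE N} (hv : ‖v‖ = 1) (w : EE N) : ‖un v w‖ = 1 := by
  unfold un; split_ifs with h
  · exact hv
  · rw [norm_smul, norm_inv, norm_norm, inv_mul_cancel₀ (norm_ne_zero_iff.2 h)]

lemma un_orth {v w : EE N} (hv : ⟪e, v⟫ = 0) (hw : ⟪e, w⟫ = 0) : ⟪e, un v w⟫ = 0 := by
  unfold un; split_ifs with h
  · exact hv
  · rw [inner_smul_right, hw, mul_zero]

lemma un_m (v : EE N) : Measurable (un v) :=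
  Measurable.ite (measurableSet_singleton 0) measurable_const (by fun_prop)

lemma pj_orth (he : ‖e‖ = 1) (y : EE N) : ⟪e, pj e y⟫ = 0 := by
  simp [pj, inner_sub_right, inner_smul_right, he]

lemma rr_m' (v : EE N) : Measurable (rr e β c v) := by
  have : Measurable fun g => mv g v := by unfold mv; fun_prop
  unfold rr pj; fun_prop

lemma pj_m : Measurable (pj e) := by unfold pj; fun_prop

lemma fl_m (t : ℕ) : Measurable fun p : EE N × (ℕ → Fin N → Fin N → ℝ) => fl e β c p.1 p.2 t := by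
  induction t with
  | zero => exact measurable_fst
  | succ t ih =>
    have h := mv_m.comp (((pj_m e).comp ih).prodMk ((measurable_pi_apply t).comp measurable_snd))
    exact ((ih.const_smul β).add ((Measurable.const_mul (measurable_const.inner ih) _).smul_const e)).add
      (h.const_smul c)

lemma fl_m' (x : EE N) (t : ℕ) : Measurable fun ω => fl e β c x ω t :=
  (fl_m e β c t).comp measurable_prodMk_left

lemma fl_upd (x : EE N) (ω : ℕ → Fin N → Fin N → ℝ) (s : ℕ) (g : Fin N → Fin N → ℝ) :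
    ∀ t ≤ s, fl e β c x (update ω s g) t = fl e β c x ω t := by
  intro t ht
  induction t with
  | zero => rfl
  | succ t ih => rw [fl, fl, ih (by omega), update_of_ne (by omega)]

lemma fl_shift (x : EE N) (ω : ℕ → Fin N → Fin N → ℝ) (s j : ℕ) :
    fl e β c x ω (s + j) = fl e β c (fl e β c x ω s) (fun i => ω (s + i)) j := by
  induction j with
  | zero => rfl
  | succ j ih => rw [← add_assoc, fl, fl, ih]

lemma fl_tr (he : ‖e‖ = 1) (x : EE N) (ω : ℕ → Fin N → Fin N → ℝ) (r : ℝ) (j : ℕ) :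
    fl e β c (x + r • e) ω j = fl e β c x ω j + r • e := by
  induction j with
  | zero => rfl
  | succ j ih =>
    have h1 : ∀ y, ⟪e, y + r • e⟫ = ⟪e, y⟫ + r := fun y => by simp [inner_add_right, inner_smul_right, he]
    have h2 : ∀ y, pj e (y + r • e) = pj e y := fun y => by rw [pj, pj, h1]; module
    rw [fl, fl, ih, st, st, h1, h2]; module

lemma pj_st (he : ‖e‖ = 1) (v y : EE N) (g : Fin N → Fin N → ℝ) :
    ‖pj e (st e β c y g)‖ ^ 2 = ‖pj e y‖ ^ 2 * rr e β c (un v (pj e y)) g := by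
  have h : pj e (st e β c y g) = β • pj e y + c • pj e (mv g (pj e y)) := by
    simp only [pj, st, inner_add_right, inner_smul_right, real_inner_self_eq_norm_sq, he]; module
  have h2 : ∀ (a : ℝ) z, pj e (a • z) = a • pj e z := fun a z => by
    simp only [pj, inner_smul_right]; module
  rw [rr, ← mul_pow, ← norm_norm (pj e y), ← norm_smul, h, smul_add, smul_comm _ β, un_eq, smul_comm _ c,
    ← h2 ‖pj e y‖, ← mv_smul, un_eq]

theorem main {n : ℕ} (e : EE (n + 2)) (he : ‖e‖ = 1) {β c : ℝ} (hβ : 0 ≤ β) (hc : 0 < c)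
    (h0 : ∫ x, Real.log (qq (n := n) β c x) ∂gp (n + 1) = 0) (x : EE (n + 2)) (hx : pj e x ≠ 0)
    (a : EE (n + 2)) (ha : ⟪a, e⟫ ≠ 0) :
    ∀ᵐ ω ∂Measure.infinitePi (fun _ : ℕ => gG (n + 2)),
      Tendsto (fun t => |⟪a, fl e β c x ω t⟫|) atTop atTop := by
  set P := Measure.infinitePi (fun _ : ℕ => gG (n + 2))
  set v0 := ‖pj e x‖⁻¹ • pj e x
  have w0 : 0 < ‖pj e x‖ := norm_pos_iff.2 hx
  have hv0 : ‖v0‖ = 1 := by rw [norm_smul, norm_inv, norm_norm, inv_mul_cancel₀ w0.ne']
  have ov0 : ⟪e, v0⟫ = 0 := by rw [inner_smul_right, pj_orth e he, mul_zero]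
  set V : ℕ → (ℕ → Fin (n + 2) → Fin (n + 2) → ℝ) → EE (n + 2) := fun s ω => un v0 (pj e (fl e β c x ω s))
  have Vm : ∀ s, Measurable (V s) := fun s => (un_m v0).comp ((pj_m e).comp (fl_m' e β c x s))
  have Vu : ∀ s, ∀ j ≤ s, ∀ ω g, V j (update ω s g) = V j ω := fun s j hj ω g => by
    simp only [V, fl_upd e β c x ω s g j hj]
  have Vl : ∀ s ω, (gG (n + 2)).map (rr e β c (V s ω)) = (gp (n + 1)).map (qq β c) := fun s ω =>
    rr_law e _ he (un_norm hv0 _) (un_orth e ov0 (pj_orth e he _)) β c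
  set ν := (gp (n + 1)).map fun y => Real.log (qq (n := n) β c y)
  have lm : Measurable fun y => Real.log (qq (n := n) β c y) := (qq_m β c).log
  set ξ : ℕ → (ℕ → Fin (n + 2) → Fin (n + 2) → ℝ) → ℝ := fun s ω => Real.log (rr e β c (V s ω) (ω s))
  have ξm : ∀ s, Measurable (ξ s) := fun s =>
    ((rr_m e β c).comp ((Vm s).prodMk (measurable_pi_apply s))).log
  have k1 := fun s => @step_meas _ _ _ _ (gG (n + 2)) _ s (fun v g => Real.log (rr e β c v g))
    (rr_m e β c).log (V s) (Vm s) (Vu s s le_rfl) ν fun ω => by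
      rw [show ν = ((gp (n + 1)).map (qq β c)).map Real.log from
        (Measure.map_map Real.measurable_log (qq_m β c)).symm, ← Vl s ω,
        Measure.map_map Real.measurable_log (rr_m' e β c (V s ω))]
      rfl
  have k2 : ∀ s B, MeasurableSet B → P (ξ s ⁻¹' B) = ν B := fun s B hB => by
    simpa using k1 s MeasurableSet.univ (by simp) hB
  obtain ⟨C, hC⟩ := rw_max P ξ ξm ν
    (fun s H hH hu => indepFun_iff_measure_inter_preimage_eq_mul.2 fun A B hA hB => by
      rw [k2 s B hB]; exact k1 s (hH hA) (fun ω g => by simp [hu]) hB)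
    (fun s j hj ω g => by simp only [ξ, Vu s j hj.le, update_of_ne hj.ne])
    (fun s => Measure.ext fun B hB => by rw [Measure.map_apply (ξm s) hB, k2 s B hB])
    (by rw [integral_map lm.aemeasurable (by fun_prop)]; exact h0)
    (by rw [integral_map lm.aemeasurable (by fun_prop)]; exact var_pos hβ hc)
    ((integrable_map_measure (by fun_prop) lm.aemeasurable).2 (int_log4 β hc))
  have pos : ∀ᵐ ω ∂P, ∀ s, 0 < rr e β c (V s ω) (ω s) := ae_all_iff.2 fun s => by
    have := step_meas (gG (n + 2)) s (rr e β c) (rr_m e β c) (V s) (Vm s) (Vu s s le_rfl) _ (Vl s)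
      MeasurableSet.univ (by simp) (measurableSet_Iic (a := 0))
    rw [Measure.map_apply (qq_m β c) measurableSet_Iic, Set.univ_inter, measure_univ, one_mul] at this
    rw [ae_iff]
    simp only [not_lt]
    refine this.trans (measure_mono_null (fun y hy => ?_) (ae_iff.1 (qq_pos (n := n) β hc)))
    intro h
    have h1 : qq β c y ≤ 0 := hy
    nlinarith [qq_ge β c y, pow_pos h 2, sq_abs (β + c * y 0)]
  have anti : ∀ (s t : ℕ) (K R : ℝ), s < t → 0 ≤ K → 0 < R →
      P {ω | |⟪a, fl e β c x ω t⟫| ≤ K ∧ R ≤ ‖pj e (fl e β c x ω s)‖}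
        ≤ ENNReal.ofReal (2 * (K / (c * R * |⟪a, e⟫|))) := by
    intro s t K R hst hK hR
    obtain ⟨j, rfl⟩ : ∃ j, t = s + 1 + j := ⟨t - (s + 1), by omega⟩
    have m1 := fl_m' e β c x
    have m2 := pj_m e
    rw [upd_s _ s (by measurability)]
    refine (lintegral_mono fun ω => ?_).trans_eq (by rw [lintegral_const, measure_univ, mul_one])
    by_cases h : R ≤ ‖pj e (fl e β c x ω s)‖
    · set y := fl e β c x ω s
      have := anti2 e (V s ω) he (un_norm hv0 _) (un_orth e ov0 (pj_orth e he _))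
        (fun z => ⟪a, fl e β c z (fun i => ω (s + 1 + i)) j⟫)
        (measurable_const.inner ((fl_m e β c j).comp measurable_prodMk_right)) _ ha
        (fun z r => by rw [fl_tr e β c he, inner_add_right, inner_smul_right])
        (β • y + ((1 - β) * ⟪e, y⟫) • e) (c * ‖pj e y‖) K (mul_pos hc (hR.trans_le h))
      refine (measure_mono fun g hg => ?_).trans (this.trans (ENNReal.ofReal_le_ofReal ?_))
      · have h1 := hg.1
        have h2 : (fun i => update ω s g (s + 1 + i)) = fun i => ω (s + 1 + i) :=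
          funext fun i => update_of_ne (by omega) _ _
        rw [fl_shift, h2, fl, fl_upd e β c x ω s g s le_rfl, update_self, st] at h1
        rwa [Set.mem_ofPred_eq, mul_smul c, ← mv_smul g ‖pj e y‖, un_eq]
      · have := abs_pos.2 ha
        gcongr
    · simp [fl_upd e β c x ω s _ s le_rfl, h]
  set κ := c * ‖pj e x‖ * |⟪a, e⟫|
  have hκ : 0 < κ := by have := abs_pos.2 ha; positivity
  set R : ℕ → ℝ := fun k => ‖pj e x‖ * Real.exp (4 ^ k / 2)
  set U : ℕ → Set (ℕ → Fin (n + 2) → Fin (n + 2) → ℝ) := fun k =>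
    {ω | ∀ s ≤ 256 ^ k, SS (fun j => ξ j ω) s < 4 ^ k} ∪ ⋃ s ∈ Finset.range (256 ^ k + 1),
      ⋃ t ∈ Finset.Ioc (256 ^ k) (256 ^ (k + 1)),
        {ω | |⟪a, fl e β c x ω t⟫| ≤ k ∧ R k ≤ ‖pj e (fl e β c x ω s)‖}
  set D : ℝ := 1024 * (2 ^ 9 * Nat.factorial 9) / κ
  have hU : ∀ k, P (U k) ≤ ENNReal.ofReal (C / 2 ^ k) + ENNReal.ofReal (D / 2 ^ k) := fun k => by
    refine (measure_union_le _ _).trans (add_le_add ?_ ?_)
    · rw [← ofReal_measureReal]; exact ENNReal.ofReal_le_ofReal (hC k)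
    refine (measure_biUnion_finset_le _ _).trans ((Finset.sum_le_card_nsmul _ _ _ fun s hs =>
      (measure_biUnion_finset_le _ _).trans (Finset.sum_le_card_nsmul _ _ _ fun t ht =>
        anti s t k (R k) (by simp at hs ht; omega) k.cast_nonneg (by positivity))).trans ?_)
    rw [nsmul_eq_mul, nsmul_eq_mul, ← ENNReal.ofReal_natCast, ← ENNReal.ofReal_natCast,
      ← ENNReal.ofReal_mul (by positivity), ← ENNReal.ofReal_mul (by positivity)]
    refine ENNReal.ofReal_le_ofReal ?_
    set u : ℝ := 2 ^ k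
    have hu : 1 ≤ u := one_le_pow₀ (by norm_num)
    have e4 : (4 : ℝ) ^ k = u ^ 2 := by simp only [u]; rw [← pow_mul, mul_comm, pow_mul]; norm_num
    have e8 : (256 : ℝ) ^ k = u ^ 8 := by simp only [u]; rw [← pow_mul, mul_comm, pow_mul]; norm_num
    have c1 : ((Finset.range (256 ^ k + 1)).card : ℝ) ≤ 2 * u ^ 8 := by
      have : 1 ≤ u ^ 8 := one_le_pow₀ hu
      simp [e8]; linarith
    have c2 : ((Finset.Ioc (256 ^ k) (256 ^ (k + 1))).card : ℝ) ≤ 256 * u ^ 8 := by
      rw [Nat.card_Ioc, ← e8, ← pow_succ']; exact_mod_cast Nat.sub_le _ _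
    have c3 : (k : ℝ) ≤ u := by simp only [u]; exact_mod_cast Nat.lt_two_pow_self.le
    have c4 := Real.pow_div_factorial_le_exp (u ^ 2 / 2) (by positivity) 9
    have c5 : c * R k * |⟪a, e⟫| = κ * Real.exp (u ^ 2 / 2) := by simp only [R, κ, e4]; ring
    rw [c5]
    calc _ ≤ 2 * u ^ 8 * (256 * u ^ 8 * (2 * (u / (κ * ((u ^ 2 / 2) ^ 9 / Nat.factorial 9))))) := by gcongr
      _ = D / u := by simp only [D]; field_simp; ring
  have hs : ∑' k, P (U k) ≠ ∞ := by
    have g : ∀ C : ℝ, ∑' k : ℕ, ENNReal.ofReal (C / 2 ^ k) ≠ ∞ := fun C => by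
      have : Summable fun k : ℕ => C / 2 ^ k := by
        simpa [div_eq_mul_inv] using (summable_geometric_two.mul_left C)
      exact this.tsum_ofReal_ne_top
    refine ne_top_of_le_ne_top ?_ (ENNReal.tsum_le_tsum hU)
    rw [ENNReal.tsum_add]; exact ENNReal.add_ne_top.2 ⟨g _, g _⟩
  filter_upwards [pos, ae_eventually_notMem hs] with ω h1 h2
  have nw : ∀ s, ‖pj e (fl e β c x ω s)‖ ^ 2 = ‖pj e x‖ ^ 2 * Real.exp (SS (fun j => ξ j ω) s) := fun s => by
    induction s with
    | zero => simp [SS, fl]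
    | succ s ih =>
      rw [fl, pj_st e β c he v0, ih, SS, SS, Finset.sum_range_succ, Real.exp_add, Real.exp_log (h1 s), mul_assoc]
  obtain ⟨k0, hk0⟩ := eventually_atTop.1 h2
  refine tendsto_atTop.2 fun M => ?_
  obtain ⟨k1, hk1⟩ := exists_nat_ge M
  filter_upwards [eventually_gt_atTop (256 ^ (k0 + k1))] with t ht
  set k := Nat.log 256 (t - 1)
  have p0 : 0 < 256 ^ (k0 + k1) := by positivity
  have p1 : k0 + k1 ≤ k := Nat.le_log_of_pow_le (by norm_num) (by omega)
  have p2 : 256 ^ k ≤ t - 1 := Nat.pow_log_le_self _ (by omega)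
  have p3 : t - 1 < 256 ^ (k + 1) := Nat.lt_pow_succ_log_self (by norm_num) _
  have := hk0 k (by omega)
  simp only [U, Set.mem_union, Set.mem_iUnion, Set.mem_ofPred_eq, not_or, not_forall, not_exists, not_and,
    not_lt, Finset.mem_range, Finset.mem_Ioc] at this
  obtain ⟨⟨s, hs1, hs2⟩, h3⟩ := this
  by_contra hM
  refine h3 s (by omega) t ⟨by omega, by omega⟩ ?_ ?_
  · have : (k1 : ℝ) ≤ k := by exact_mod_cast (by omega : k1 ≤ k)
    linarith [not_le.1 hM]
  · refine (abs_le_of_sq_le_sq' ?_ (norm_nonneg _)).2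
    rw [nw, mul_pow, ← Real.exp_nat_mul]
    gcongr
    push_cast; linarith

end Pool.Agent.H.MP_21b2a2_pr
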