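import Pool.Agent.H.MP_21b2a2_pr.B

set_option autoImplicit false

namespace Pool.Agent.H.MP_21b2a2_pr

open MeasureTheory ProbabilityTheory Filter Topology Function Real Set
open scoped ENNReal BoundedContinuousFunction

lemma lap_ext (P P' : Measure ℝ) [IsFiniteMeasure P] [IsFiniteMeasure P']
    (h : ∀ k : ℕ, ∫ u, exp (-exp u) ^ k ∂P = ∫ u, exp (-exp u) ^ k ∂P') : P = P' := by
  let f : ℝ →ᵇ ℝ := BoundedContinuousFunction.ofNormedAddCommGroup (fun u => exp (-exp u)) (by fun_prop) 1
    fun u => by rw [Real.norm_eq_abs, abs_of_pos (exp_pos _)]; exact exp_le_one_iff.2 (by simp [(exp_pos u).le])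
  let A : StarSubalgebra ℝ (ℝ →ᵇ ℝ) :=
    { Algebra.adjoin ℝ {f} with star_mem' := fun {a} ha => by rwa [show star a = a by ext; simp] }
  refine ext_of_forall_mem_subalgebra_integral_eq_of_polish (A := A) (fun x y hxy => ?_) fun g hg => ?_
  · refine ⟨f, ⟨f.toContinuousMap, ⟨f, Algebra.self_mem_adjoin_singleton ℝ f, rfl⟩, rfl⟩, fun e => hxy ?_⟩
    exact exp_injective (neg_injective (exp_injective e))
  · have hg' : g ∈ Algebra.adjoin ℝ {f} := hg
    rw [Algebra.adjoin_singleton_eq_range_aeval] at hg'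
    obtain ⟨p, rfl⟩ := hg'
    have e : ∀ u, (Polynomial.aeval f).toRingHom p u
        = ∑ i ∈ Finset.range (p.natDegree + 1), p.coeff i * (f ^ i) u := fun u => by
      simp [Polynomial.aeval_eq_sum_range]
    simp_rw [e]
    rw [integral_finsetSum _ fun i _ => ((f ^ i).integrable P).const_mul _,
      integral_finsetSum _ fun i _ => ((f ^ i).integrable P').const_mul _]
    refine Finset.sum_congr rfl fun i _ => ?_
    rw [integral_const_mul, integral_const_mul]
    exact congrArg _ (h i)

lemma gam_int {a : ℝ} (ha : 0 < a) (F : ℝ → ℝ) :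
    ∫ t, F t ∂gammaMeasure a 1 = (∫ t in Ioi 0, t ^ (a - 1) * (F t * exp (-t))) / Gamma a := by
  rw [gammaMeasure, integral_withDensity_eq_integral_toReal_smul (f := gammaPDF a 1)
    (measurable_gammaPDFReal a 1).ennreal_ofReal
    (ae_of_all _ fun _ => ENNReal.ofReal_lt_top), ← integral_Ici_eq_integral_Ioi, ← integral_div,
    ← integral_indicator measurableSet_Ici]
  refine integral_congr_ae (ae_of_all _ fun t => ?_)
  simp only [gammaPDF, ENNReal.toReal_ofReal (gammaPDFReal_nonneg ha one_pos t)]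
  simp only [gammaPDFReal, indicator, mem_Ici]
  split_ifs
  · simp; ring
  · simp

lemma gam_lap {a : ℝ} (ha : 0 < a) (k : ℕ) :
    ∫ t, exp (-exp (log t)) ^ k ∂gammaMeasure a 1 = (1 / (1 + k)) ^ a := by
  rw [gam_int ha, div_eq_iff (Gamma_pos_of_pos ha).ne',
    ← integral_rpow_mul_exp_neg_mul_Ioi ha (by positivity : (0 : ℝ) < 1 + k)]
  refine setIntegral_congr_fun measurableSet_Ioi fun t ht => ?_
  simp only [exp_log ht, ← exp_nat_mul, ← exp_add]
  congr 2; ring

lemma gam_log {a : ℝ} (ha : 0 < a) : ∫ t, log t ∂gammaMeasure a 1 = (Complex.digamma a).re := by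
  have h1 : HasDerivAt Complex.Gamma _ a :=
    (Complex.hasDerivAt_GammaIntegral (s := a) (by simpa using ha)).congr_of_eventuallyEq (by
      filter_upwards [(Complex.continuous_re.isOpen_preimage _ isOpen_Ioi).mem_nhds
        (show (a : ℂ) ∈ Complex.re ⁻¹' Ioi 0 by simpa using ha)] with s hs
      exact Complex.Gamma_eq_integral hs)
  have h2 : (∫ t : ℝ in Ioi 0, (t : ℂ) ^ ((a : ℂ) - 1) * (Real.log t * Real.exp (-t)))
      = ((∫ t in Ioi 0, t ^ (a - 1) * (log t * exp (-t)) : ℝ) : ℂ) := by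
    rw [← integral_complex_ofReal]
    refine setIntegral_congr_fun measurableSet_Ioi fun t ht => ?_
    simp [Complex.ofReal_cpow (le_of_lt ht)]
  rw [gam_int ha, Complex.digamma_def, logDeriv_apply, h1.deriv, h2, Complex.Gamma_ofReal,
    ← Complex.ofReal_div, Complex.ofReal_re]

lemma lap1 (β : ℝ) {c : ℝ} (hc : 0 < c) (k : ℕ) :
    ∫ z, exp (-(k / (2 * c ^ 2)) * (β + c * z) ^ 2) ∂gaussianReal 0 1
      = (1 / (1 + k)) ^ (1 / 2 : ℝ) * exp (-(β ^ 2 / (2 * c ^ 2) * k / (1 + k))) := by
  rw [integral_gaussianReal_eq_integral_smul one_ne_zero]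
  have e : ∀ z : ℝ, gaussianPDFReal 0 1 z • exp (-(k / (2 * c ^ 2)) * (β + c * z) ^ 2)
      = (√(2 * π))⁻¹ * exp (-(β ^ 2 / (2 * c ^ 2) * k / (1 + k)))
        * exp (-((1 + k) / 2) * (z + k * β / (c * (1 + k))) ^ 2) := fun z => by
    simp only [gaussianPDFReal, NNReal.coe_one, mul_one, smul_eq_mul, mul_assoc, ← exp_add]
    congr 2; field_simp; ring
  simp_rw [e]
  rw [integral_const_mul, integral_add_right_eq_self (fun z : ℝ => exp (-((1 + k) / 2) * z ^ 2)),
    integral_gaussian, ← sqrt_eq_rpow, mul_right_comm, ← sqrt_inv, ← sqrt_mul (by positivity)]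
  congr 2; field_simp

theorem digam {n : ℕ} (β : ℝ) {c : ℝ} (hc : 0 < c) :
    ∫ y, log (qq (n := n) β c y) ∂gp (n + 1) = exp (-(β ^ 2 / (2 * c ^ 2))) *
      ∑' j : ℕ, (β ^ 2 / (2 * c ^ 2)) ^ j / j.factorial * (Complex.digamma (j + (n + 1) / 2 : ℝ)).re
      + log (2 * c ^ 2) := by
  set x := β ^ 2 / (2 * c ^ 2)
  have hx : 0 ≤ x := by positivity
  set p : ℕ → ℝ := fun j => exp (-x) * (x ^ j / j.factorial)
  have hp : ∀ j, 0 ≤ p j := fun j => by positivity
  have ha : ∀ j : ℕ, (0 : ℝ) < j + (n + 1) / 2 := fun j => by positivity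
  have := fun j => isProbabilityMeasure_gammaMeasure (ha j) one_pos
  set μ := Measure.sum fun j : ℕ => ENNReal.ofReal (p j) • gammaMeasure (j + (n + 1) / 2) 1
  have : IsFiniteMeasure μ := ⟨by
    rw [Measure.sum_apply _ MeasurableSet.univ]
    simpa using ((summable_pow_div_factorial x).mul_left (exp (-x))).tsum_ofReal_lt_top⟩
  have hs : ∀ F : ℝ → ℝ, Integrable F μ →
      ∫ t, F t ∂μ = ∑' j, p j * ∫ t, F t ∂gammaMeasure (j + (n + 1) / 2) 1 := fun F hF => by
    rw [integral_sum_measure hF]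
    simp_rw [integral_smul_measure, ENNReal.toReal_ofReal (hp _), smul_eq_mul]
  have qm := qq_m (n := n) β c
  have qp : ∀ᵐ y ∂gp (n + 1), 0 < qq β c y := (qq_pos (n := n) β hc).mono fun y h => by
    nlinarith [qq_ge β c y, pow_pos h 2, sq_abs (β + c * y 0)]
  have key : (gp (n + 1)).map (fun y => log (qq β c y / (2 * c ^ 2))) = μ.map log := by
    refine lap_ext _ _ fun k => ?_
    rw [integral_map (Measurable.aemeasurable (by fun_prop)) (by fun_prop),
      integral_map measurable_log.aemeasurable (by fun_prop), hs _ ((integrable_const (1 : ℝ)).mono'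
        (Measurable.aestronglyMeasurable (by fun_prop)) (ae_of_all _ fun t => by
          rw [Real.norm_eq_abs, abs_of_nonneg (by positivity)]
          exact pow_le_one₀ (exp_pos _).le (exp_le_one_iff.2 (by simp [(exp_pos _).le]))))]
    simp_rw [gam_lap (ha _)]
    have e1 : ∫ y, exp (-exp (log (qq (n := n) β c y / (2 * c ^ 2)))) ^ k ∂gp (n + 1) = ∫ y, ∏ i,
        exp (-(k / (2 * c ^ 2)) * ((if i = 0 then β else 0) + c * y i) ^ 2) ∂gp (n + 1) := by
      refine integral_congr_ae (qp.mono fun y hy => ?_)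
      simp only
      rw [exp_log (by positivity), ← exp_nat_mul, ← exp_sum, ← Finset.mul_sum, Fin.sum_univ_succ]
      simp [qq]; ring
    rw [e1, integral_fintype_prod_eq_prod
      (f := fun i z => exp (-(k / (2 * c ^ 2)) * ((if i = 0 then β else 0) + c * z) ^ 2))]
    simp_rw [lap1 _ hc]
    have hk : (0 : ℝ) < 1 / (1 + k) := by positivity
    have e2 : ∀ j : ℕ, p j * (1 / (1 + k) : ℝ) ^ (j + (n + 1) / 2 : ℝ)
        = exp (-x) * (1 / (1 + k) : ℝ) ^ ((n + 1) / 2 : ℝ) * ((x * (1 / (1 + k))) ^ j / j.factorial) := fun j => by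
      rw [rpow_add hk, rpow_natCast, mul_pow]; simp only [p]; ring
    simp_rw [e2]
    rw [tsum_mul_left, (NormedSpace.expSeries_div_hasSum_exp (x * (1 / (1 + k)))).tsum_eq,
      ← Real.exp_eq_exp_ℝ, Finset.prod_mul_distrib, Finset.prod_const, ← exp_sum, Fin.sum_univ_succ,
      ← rpow_natCast, ← rpow_mul hk.le, mul_right_comm, ← exp_add, mul_comm]
    congr 2
    · simp [x]; field_simp; ring
    · simp; ring
  have il : Integrable (fun y => log (qq (n := n) β c y)) (gp (n + 1)) :=
    ((int_log4 β hc).add (integrable_const 1)).mono' (Measurable.aestronglyMeasurable (by fun_prop))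
      (ae_of_all _ fun y => by
        simp only [Pi.add_apply, Real.norm_eq_abs]
        set l := log (qq β c y)
        nlinarith [sq_nonneg (|l| - 1), sq_abs l, sq_nonneg (l ^ 2 - 1), sq_nonneg l])
  have e3 : (fun y => log (qq (n := n) β c y / (2 * c ^ 2))) =ᵐ[gp (n + 1)]
      fun y => log (qq β c y) - log (2 * c ^ 2) := qp.mono fun y hy => log_div hy.ne' (by positivity)
  have i2 : Integrable log μ := by
    have : Integrable id (μ.map log) := by
      rw [← key, integrable_map_measure (by fun_prop) (Measurable.aemeasurable (by fun_prop))]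
      exact (il.sub (integrable_const _)).congr e3.symm
    exact (integrable_map_measure (by fun_prop) measurable_log.aemeasurable).1 this
  have e4 := congrArg (fun ν => ∫ u, u ∂ν) key
  rw [integral_map (Measurable.aemeasurable (by fun_prop)) (by fun_prop),
    integral_map measurable_log.aemeasurable (by fun_prop), hs _ i2, integral_congr_ae e3,
    integral_sub il (integrable_const _)] at e4
  simp_rw [gam_log (ha _), p, mul_assoc] at e4
  rw [tsum_mul_left] at e4
  simp only [integral_const, probReal_univ, one_smul] at e4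
  linarith

end Pool.Agent.H.MP_21b2a2_pr
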