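import Pool.Agent.H.MP_21b2a2_pr.C

set_option autoImplicit false

namespace Pool.Agent.H.MP_21b2a2_pr

open MeasureTheory ProbabilityTheory Filter Topology Function
open scoped ENNReal

def Mk {S Ω : Type} [MeasurableSpace S] [MeasurableSpace Ω] (κ : S → Measure S) (P : Measure Ω)
    (X : ℕ → Ω → S) : Prop :=
  ∀ (t : ℕ) (A : Set (Fin (t + 1) → S)) (B : Set S), MeasurableSet A → MeasurableSet B →
    P ({ω | (fun s : Fin (t + 1) => X s ω) ∈ A} ∩ X (t + 1) ⁻¹' B)
      = ∫⁻ ω in {ω | (fun s : Fin (t + 1) => X s ω) ∈ A}, κ (X t ω) B ∂P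

lemma mk_uniq {S Ω Ω' : Type} [MeasurableSpace S] [MeasurableSpace Ω] [MeasurableSpace Ω']
    (κ : S → Measure S) (hκ : ∀ B, MeasurableSet B → Measurable fun x => κ x B)
    (P : Measure Ω) [IsProbabilityMeasure P] (Q : Measure Ω') [IsProbabilityMeasure Q]
    (X : ℕ → Ω → S) (Y : ℕ → Ω' → S) (hX : ∀ t, Measurable (X t)) (hY : ∀ t, Measurable (Y t))
    (mX : Mk κ P X) (mY : Mk κ Q Y) (h0 : P.map (X 0) = Q.map (Y 0)) :
    P.map (fun ω t => X t ω) = Q.map (fun ω t => Y t ω) := by
  have hx : ∀ t : ℕ, Measurable fun ω (s : Fin t) => X s ω := fun t => measurable_pi_lambda _ fun s => hX s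
  have hy : ∀ t : ℕ, Measurable fun ω (s : Fin t) => Y s ω := fun t => measurable_pi_lambda _ fun s => hY s
  have fin : ∀ t : ℕ, P.map (fun ω (s : Fin (t + 1)) => X s ω) = Q.map fun ω (s : Fin (t + 1)) => Y s ω := by
    intro t
    induction t with
    | zero =>
      have m : Measurable fun (x : S) (_ : Fin (0 + 1)) => x := by fun_prop
      have := congrArg (Measure.map fun (x : S) (_ : Fin (0 + 1)) => x) h0
      rw [Measure.map_map m (hX 0), Measure.map_map m (hY 0)] at this
      convert this using 2 <;> funext ω s <;> simp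
    | succ t ih =>
      have e : P.map (fun ω => (fun s : Fin (t + 1) => X s ω, X (t + 1) ω))
          = Q.map fun ω => (fun s : Fin (t + 1) => Y s ω, Y (t + 1) ω) := by
        refine Measure.ext_prod fun {A B} hA hB => ?_
        have m : Measurable fun h : Fin (t + 1) → S => κ (h (Fin.last t)) B :=
          (hκ B hB).comp (measurable_pi_apply _)
        rw [Measure.map_apply ((hx _).prodMk (hX _)) (hA.prod hB),
          Measure.map_apply ((hy _).prodMk (hY _)) (hA.prod hB)]
        refine (mX t A B hA hB).trans (Eq.trans ?_ (mY t A B hA hB).symm)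
        exact (setLIntegral_map hA m (hx _)).symm.trans (ih ▸ setLIntegral_map hA m (hy _))
      have m : Measurable fun (p : (Fin (t + 1) → S) × S) (s : Fin (t + 1 + 1)) =>
          if h : s.val < t + 1 then p.1 ⟨s, h⟩ else p.2 :=
        measurable_pi_lambda _ fun s => by split_ifs <;> fun_prop
      have := congrArg (Measure.map fun (p : (Fin (t + 1) → S) × S) (s : Fin (t + 1 + 1)) =>
          if h : s.val < t + 1 then p.1 ⟨s, h⟩ else p.2) e
      rw [Measure.map_map m ((hx _).prodMk (hX _)), Measure.map_map m ((hy _).prodMk (hY _))] at this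
      convert this using 2 <;> funext ω s <;> simp only [comp_apply] <;> split_ifs with h <;>
        first | rfl | rw [show s.val = t + 1 by omega]
  have hI : ∀ I : Finset ℕ, P.map (fun ω => I.restrict (X · ω)) = Q.map fun ω => I.restrict (Y · ω) := by
    intro I
    have m : Measurable fun (h : Fin (I.sup id + 1) → S) (i : I) =>
        h ⟨i, Nat.lt_succ_of_le (Finset.le_sup (f := id) i.2)⟩ := by fun_prop
    have := congrArg (Measure.map fun (h : Fin (I.sup id + 1) → S) (i : I) =>
        h ⟨i, Nat.lt_succ_of_le (Finset.le_sup (f := id) i.2)⟩) (fin (I.sup id))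
    rwa [Measure.map_map m (hx _), Measure.map_map m (hy _)] at this
  have p1 := isProjectiveLimit_map (P := P) (X := X) (measurable_pi_lambda _ hX).aemeasurable
  have p2 := isProjectiveLimit_map (P := Q) (X := Y) (measurable_pi_lambda _ hY).aemeasurable
  simp_rw [← hI] at p2
  exact p1.unique p2

def rec1 {S G : Type} (F : S → G → S) (x : S) (ω : ℕ → G) : ℕ → S
  | 0 => x
  | t + 1 => F (rec1 F x ω t) (ω t)

lemma rec1_m {S G : Type} [MeasurableSpace S] [MeasurableSpace G] {F : S → G → S}
    (hF : Measurable fun p : S × G => F p.1 p.2) (t : ℕ) :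
    Measurable fun p : S × (ℕ → G) => rec1 F p.1 p.2 t := by
  induction t with
  | zero => exact measurable_fst
  | succ t ih => exact hF.comp (ih.prodMk ((measurable_pi_apply t).comp measurable_snd))

lemma rec1_upd {S G : Type} (F : S → G → S) (x : S) (ω : ℕ → G) (s : ℕ) (g : G) :
    ∀ t ≤ s, rec1 F x (update ω s g) t = rec1 F x ω t := by
  intro t ht
  induction t with
  | zero => rfl
  | succ t ih => rw [rec1, rec1, ih (by omega), update_of_ne (by omega)]

lemma rec1_mk {S G : Type} [MeasurableSpace S] [MeasurableSpace G] {F : S → G → S}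
    (hF : Measurable fun p : S × G => F p.1 p.2) (π : Measure G) [IsProbabilityMeasure π]
    (μ : Measure S) [IsProbabilityMeasure μ] :
    Mk (fun x => π.map (F x)) (μ.prod (Measure.infinitePi fun _ : ℕ => π))
      fun t p => rec1 F p.1 p.2 t := by
  intro t A B hA hB
  have m1 : MeasurableSet {p : S × (ℕ → G) | (fun s : Fin (t + 1) => rec1 F p.1 p.2 s) ∈ A} :=
    measurable_pi_lambda _ (fun s : Fin (t + 1) => rec1_m hF s) hA
  have m2 := m1.inter (rec1_m hF (t + 1) hB)
  have e : ∀ x, π.map (F x) B = π (Prod.mk x ⁻¹' ((fun p : S × G => F p.1 p.2) ⁻¹' B)) := fun x =>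
    Measure.map_apply (hF.comp measurable_prodMk_left) hB
  have m3 : Measurable fun x => π.map (F x) B := by
    simp_rw [e]; exact measurable_measure_prodMk_left (hF hB)
  rw [Measure.prod_apply m2, ← lintegral_indicator m1]
  refine Eq.trans ?_ (lintegral_prod _ ((m3.comp (rec1_m hF t)).indicator m1).aemeasurable).symm
  refine lintegral_congr fun x => ?_
  rw [upd_s π t (measurable_prodMk_left m2)]
  refine lintegral_congr fun ω => ?_
  have h1 : ∀ g, (fun s : Fin (t + 1) => rec1 F x (update ω t g) s) = fun s : Fin (t + 1) => rec1 F x ω s :=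
    fun g => funext fun s => rec1_upd F x ω t g s (by omega)
  by_cases h : (fun s : Fin (t + 1) => rec1 F x ω s) ∈ A
  · rw [Set.indicator_of_mem (by exact h), comp_apply, e]
    congr 1; ext g; simp [h1, h, rec1, rec1_upd F x ω t g t le_rfl]
  · rw [Set.indicator_of_notMem (by exact h)]
    simp [h1, h]

theorem transfer {S G Ω : Type} [MeasurableSpace S] [MeasurableSpace G] [MeasurableSpace Ω] {F : S → G → S}
    (hF : Measurable fun p : S × G => F p.1 p.2) (π : Measure G) [IsProbabilityMeasure π]
    (P : Measure Ω) [IsProbabilityMeasure P] (X : ℕ → Ω → S) (hX : ∀ t, Measurable (X t))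
    (mX : Mk (fun x => π.map (F x)) P X) {E : Set (ℕ → S)} (hE : MeasurableSet E) {T : Set S}
    (hT : MeasurableSet T) (h0 : ∀ᵐ ω ∂P, X 0 ω ∈ T)
    (h : ∀ x ∈ T, ∀ᵐ ω ∂Measure.infinitePi fun _ : ℕ => π, rec1 F x ω ∈ E) :
    ∀ᵐ ω ∂P, (fun t => X t ω) ∈ E := by
  have := Measure.isProbabilityMeasure_map (μ := P) (hX 0).aemeasurable
  have e : ∀ B, MeasurableSet B → ∀ x, π.map (F x) B
      = π (Prod.mk x ⁻¹' ((fun p : S × G => F p.1 p.2) ⁻¹' B)) := fun B hB x =>
    Measure.map_apply (hF.comp measurable_prodMk_left) hB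
  have u := mk_uniq _ (fun B hB => by simp_rw [e B hB]; exact measurable_measure_prodMk_left (hF hB))
    P _ X _ hX (rec1_m hF) mX (rec1_mk hF π (P.map (X 0))) (by
      exact (Measure.map_fst_prod.trans (by simp)).symm)
  have m := measurable_pi_lambda (fun (p : S × (ℕ → G)) t => rec1 F p.1 p.2 t) (rec1_m hF)
  refine ae_of_ae_map (p := (· ∈ E)) (measurable_pi_lambda _ hX).aemeasurable ?_
  rw [u]
  refine (ae_map_iff (p := (· ∈ E)) m.aemeasurable hE).2 ((Measure.ae_prod_iff_ae_ae (m hE)).2 ?_)
  filter_upwards [(ae_map_iff (hX 0).aemeasurable hT).2 h0] with x hx using h x hx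

end Pool.Agent.H.MP_21b2a2_pr
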